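import Mathlib
import Pool.Agent.W668.Shai.C01

/-!
`C[0,1]` has the SHAI property (real and complex scalars).

Let `ψ` be a surjective homomorphism from `B(X)`, `X = C[0,1]`, onto `B(Y)` with a nonzero kernel.
Then `ψ` is continuous and kills the operators of finite rank, in particular the Bernstein operators
`B n`, so `R n = 1 - B n` is mapped to `1`, and `R n` tends to `0` strongly. Let `V n` be the
composition with the affine map of `[0,1]` onto the `n`-th of a sequence of disjoint intervals. As
`R n` tends to `0` strongly, for every set `S` of natural numbers there is one operator `T S` on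
`X` with `V n * T S = R n` for `n ∈ S` and `V n * T S = 0` for `n ∉ S`. Fix `y`, `f` with
`f y = 1`. The vectors `ψ (T S) y` and the functionals `f ∘ ψ (V n)` show that `Y` maps onto
`ℓ_∞`, hence that `B(Y)` has cardinality at least `2 ^ (2 ^ ℵ₀)`. But `B(X)` has the cardinality of
the continuum.
-/

set_option autoImplicit false

namespace Pool.Agent.Results.MP_7b3514_an.ShaiC01

/-- For `𝕜 = ℝ` or `ℂ` and every nonzero Banach space `Y` over `𝕜`, every surjective algebra
homomorphism (multiplicative linear map, neither continuity nor unitality is assumed) from the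
bounded operators on `C[0,1]` onto the bounded operators on `Y` is injective. -/
theorem result {𝕜 : Type*} [RCLike 𝕜] (Y : Type*) [NormedAddCommGroup Y] [NormedSpace 𝕜 Y]
    [CompleteSpace Y] [Nontrivial Y]
    (ψ : (C(Set.Icc (0 : ℝ) 1, 𝕜) →L[𝕜] C(Set.Icc (0 : ℝ) 1, 𝕜)) →ₙₐ[𝕜] (Y →L[𝕜] Y))
    (hψ : Function.Surjective ψ) : Function.Injective ψ :=
  Pool.Agent.W668.Shai.shai_C01 ψ hψ

end Pool.Agent.Results.MP_7b3514_an.ShaiC01
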